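import Pool.Agent.Mg.F692752a.G850fa5

set_option autoImplicit false

namespace Pool.Agent.Results.MP_692752_al.BranchPush

open Pool.Agent.MP_692752_al

theorem result (g h : ℕ) (hg : 2 ≤ g) (hh : 2 ≤ h) (D : Subgroup (Surf g)) (hD : D.FiniteIndex)
    (θ : D →* Surf (h + h)) (hθ : θ.range.FiniteIndex)
    (H H₀ : Subgroup (Out (Surf g))) (hH : H.FG) (k0 : H₀.relIndex H ≠ 0)
    (k1 : ∀ φ ∈ H₀, ∃ (α : MulAut (Surf g)) (w : Surf h),
      toOut (Surf g) α = φ ∧ Pushes D θ w α)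
    (k2 : {φ : Out (Surf g) | φ ∈ H ∧
      ∃ α : MulAut (Surf g), toOut (Surf g) α = φ ∧ Pushes D θ 1 α}.Finite) :
    Separable H :=
  PP.fin_pf PP.outg_pf (PP.core_pf PP.key_pf PP.clo_pf) PP.cfs_pf PP.cos_pf PP.tor_pf PP.nrs_pf
    PP.ler_pf (PP.apx_pf (PP.cmp_pf PP.cl_pf PP.seg_pf) PP.inv_pf) g h hg hh D hD θ hθ H H₀ hH
    k0 k1 k2

end Pool.Agent.Results.MP_692752_al.BranchPush
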