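import Pool.Agent.Mg.F692752.Gf5a3e4

set_option autoImplicit false

namespace Pool.Agent.Results.MP_692752_al.ConeTorus

open Pool.Agent.MP_692752_al

theorem result (g : ℕ) (hg : 2 ≤ g) (D : Subgroup (Surf g)) (hD : D.FiniteIndex)
    (θ : D →* Orb) (hθ : θ.range.FiniteIndex)
    (H : Subgroup (Out (Surf g))) (hH : H.FG)
    (h1 : (Desc D θ).relIndex (H.comap (toOut (Surf g))) ≠ 0)
    (h2 : {φ : Out (Surf g) | φ ∈ H ∧
      ∃ α : MulAut (Surf g), toOut (Surf g) α = φ ∧ ActsInner D θ α}.Finite) :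
    Separable H :=
  v2_of out_all coreV_all (Surf g) (surf_fg g) (gr_all g hg) D hD θ hθ H hH h1 h2

end Pool.Agent.Results.MP_692752_al.ConeTorus
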