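import Pool.Agent.Mg.F692752.G505041

set_option autoImplicit false

namespace Pool.Agent.Results.MP_692752_al.RandomHyperelliptic

open Pool.Agent.MP_692752_al

theorem result (g n : ℕ) (hg : 2 ≤ g) (hn : 5 ≤ n)
    (j : Surf g →* Sph n) (hj : Function.Injective j) (hr : j.range.FiniteIndex)
    (S : Finset (Out (Surf g))) (hS : ∀ s ∈ S, s⁻¹ ∈ S)
    (hc : (Subgroup.closure (S : Set (Out (Surf g)))).Commensurable (Liftable j)) (k : ℕ) :
    Filter.Tendsto (fun m : ℕ => (Nat.card {w : Fin k → Fin m → S // Separable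
      (Subgroup.closure (Set.range fun i => (List.ofFn fun l => (w i l : Out (Surf g))).prod))} :
        ℝ) / (S.card : ℝ) ^ (k * m)) Filter.atTop (nhds 1) :=
  rnd_of r0_all hyp_all g n hg hn j hj hr S hS hc k

end Pool.Agent.Results.MP_692752_al.RandomHyperelliptic
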